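import Mathlib

/-!
# Integers with many nonzero digits whose squares have few nonzero digits

The polynomial `f = 1 + 2 x - 2 x ^ 2 + 4 x ^ 3 + 4 x ^ 4` has a negative coefficient, but its square
`1 + 4 x + 28 x ^ 4 + 32 x ^ 7 + 16 x ^ 8` has none. So for every base `b` the integer `n = f (b ^ k)`
contains a long block of digits `b - 1` (at least `k - 1` nonzero digits), while for large `k` the
nonzero digits of `n ^ 2` are those of `1, 4, 28, 32, 16`.
-/

set_option autoImplicit false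

namespace Pool.Agent.Results.MP_dd1d4c_nt.SparseSquares

/-- The number of nonzero digits of `m` in base `b`. -/
def N (b m : ℕ) : ℕ := ((Nat.digits b m).filter (fun d => d ≠ 0)).length

theorem N_step {b : ℕ} (hb : 2 ≤ b) {r m : ℕ} (hr : r < b) :
    N b (r + b * m) = N b r + N b m := by
  unfold N
  rcases Nat.eq_zero_or_pos m with rfl | hm
  · simp
  · rw [Nat.digits_add b (by omega) r m hr (Or.inr hm.ne')]
    rcases Nat.eq_zero_or_pos r with rfl | hr0
    · simp
    · rw [Nat.digits_of_lt b r hr0.ne' hr]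
      simp [hr0.ne']
      omega

theorem N_add {b : ℕ} (hb : 2 ≤ b) (k : ℕ) : ∀ {r : ℕ} (_ : r < b ^ k) (m : ℕ),
    N b (r + b ^ k * m) = N b r + N b m := by
  induction k with
  | zero =>
    intro r hr m
    have : r = 0 := by simpa using hr
    subst this
    simp [N]
  | succ k ih =>
    intro r hr m
    have hb0 : 0 < b := by omega
    have h1 : r % b < b := Nat.mod_lt _ hb0
    have h2 : r / b < b ^ k := by
      rw [Nat.div_lt_iff_lt_mul hb0]
      rwa [pow_succ] at hr
    have e1 : r + b ^ (k + 1) * m = r % b + b * (r / b + b ^ k * m) := by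
      have := Nat.mod_add_div r b
      rw [pow_succ]
      nlinarith [this]
    have e2 : r = r % b + b * (r / b) := (Nat.mod_add_div r b).symm
    rw [e1, N_step hb h1, ih h2 m, ← add_assoc, ← N_step hb h1, ← e2]

theorem N_one {b : ℕ} (hb : 2 ≤ b) : N b 1 = 1 := by
  unfold N
  rw [Nat.digits_of_lt b 1 one_ne_zero (by omega)]
  simp

theorem N_small {b m : ℕ} (hm : m < b) : N b m ≤ 1 := by
  unfold N
  rcases Nat.eq_zero_or_pos m with rfl | h
  · simp
  · rw [Nat.digits_of_lt b m h.ne' hm]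
    exact (List.length_filter_le _ _)

/-- `b ^ k - 1` has `k` nonzero digits. -/
theorem N_pred {b : ℕ} (hb : 2 ≤ b) (k : ℕ) : ∀ m : ℕ, m + 1 = b ^ k → N b m = k := by
  induction k with
  | zero =>
    intro m hm
    have : m = 0 := by simpa using hm
    subst this
    simp [N]
  | succ k ih =>
    intro m hm
    have hpos : 0 < b ^ k := Nat.pow_pos (by omega)
    obtain ⟨u, hu⟩ : ∃ u, u + 1 = b ^ k := ⟨b ^ k - 1, by omega⟩
    obtain ⟨c, hc⟩ : ∃ c, c + 1 = b := ⟨b - 1, by omega⟩
    have e : m = c + b * u := by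
      have h1 : b ^ (k + 1) = b * b ^ k := by rw [pow_succ, mul_comm]
      rw [h1, ← hu] at hm
      have h2 : b * (u + 1) = b * u + b := by ring
      omega
    have hN : N b c = 1 := by
      unfold N
      rw [Nat.digits_of_lt b c (by omega) (by omega)]
      have : c ≠ 0 := by omega
      simp [this]
    rw [e, N_step hb (by omega), hN, ih u hu]
    omega

/-- `b ^ k - 2` has at least `k - 1` nonzero digits. -/
theorem N_pred2 {b : ℕ} (hb : 2 ≤ b) {k m : ℕ} (hm : m + 2 = b ^ (k + 1)) : k ≤ N b m := by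
  have hpos : 0 < b ^ k := Nat.pow_pos (by omega)
  obtain ⟨u, hu⟩ : ∃ u, u + 1 = b ^ k := ⟨b ^ k - 1, by omega⟩
  obtain ⟨c, hc⟩ : ∃ c, c + 2 = b := ⟨b - 2, by omega⟩
  have e : m = c + b * u := by
    have h1 : b ^ (k + 1) = b * b ^ k := by rw [pow_succ, mul_comm]
    rw [h1, ← hu] at hm
    have h2 : b * (u + 1) = b * u + b := by ring
    omega
  rw [e, N_step hb (by omega), N_pred hb k u hu]
  omega

/-- The number of nonzero digits of `f (b ^ k) ^ 2`. -/
theorem N_sq {b k : ℕ} (hb : 2 ≤ b) (hk : 6 ≤ k) :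
    N b (1 + b ^ k * (4 + b ^ k * (0 + b ^ k * (0 + b ^ k * (28 + b ^ k * (0 + b ^ k * (0 + b ^ k *
      (32 + b ^ k * 16)))))))) = 1 + N b 4 + N b 28 + N b 32 + N b 16 := by
  have hx : 64 ≤ b ^ k := by
    calc 64 = 2 ^ 6 := by norm_num
      _ ≤ 2 ^ k := Nat.pow_le_pow_right (by norm_num) hk
      _ ≤ b ^ k := Nat.pow_le_pow_left hb k
  rw [N_add hb k (by omega), N_add hb k (by omega), N_add hb k (by omega), N_add hb k (by omega),
    N_add hb k (by omega), N_add hb k (by omega), N_add hb k (by omega), N_add hb k (by omega),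
    N_one hb]
  simp only [N, Nat.digits_zero, List.filter_nil, List.length_nil]
  omega

theorem bound {b : ℕ} (hb : 2 ≤ b) :
    1 + N b 4 + N b 28 + N b 32 + N b 16 ≤ if 33 ≤ b then 5 else 11 := by
  split_ifs with h
  · have h1 : N b 4 ≤ 1 := N_small (by omega)
    have h2 : N b 28 ≤ 1 := N_small (by omega)
    have h3 : N b 32 ≤ 1 := N_small (by omega)
    have h4 : N b 16 ≤ 1 := N_small (by omega)
    omega
  · have hb' : b < 33 := by omega
    interval_cases b <;> simp [N]

/-- **Main theorem.** In every base `b ≥ 2`, the number of nonzero digits of `n` is unbounded on the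
set of the integers `n` whose square has at most `11` nonzero digits; if `b ≥ 33` then `11` can be
replaced by `5`. -/
theorem result : ∀ b : ℕ, 2 ≤ b → ∀ l : ℕ, ∃ n : ℕ,
    N b (n ^ 2) ≤ (if 33 ≤ b then 5 else 11) ∧ l < N b n := by
  intro b hb l
  obtain ⟨k, hk⟩ : ∃ k, k = l + 6 := ⟨_, rfl⟩
  have hx : 64 ≤ b ^ k := by
    calc 64 = 2 ^ 6 := by norm_num
      _ ≤ 2 ^ k := Nat.pow_le_pow_right (by norm_num) (by omega)
      _ ≤ b ^ k := Nat.pow_le_pow_left hb k
  obtain ⟨m, hm⟩ : ∃ m, m + 2 = b ^ k := ⟨b ^ k - 2, by omega⟩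
  obtain ⟨k', hk'⟩ : ∃ k', k = k' + 1 := ⟨l + 5, by omega⟩
  refine ⟨(1 + 2 * b ^ k) + b ^ (k + k) * (m + b ^ k * (3 + 4 * b ^ k)), ?_, ?_⟩
  · have e : ((1 + 2 * b ^ k) + b ^ (k + k) * (m + b ^ k * (3 + 4 * b ^ k))) ^ 2 =
        1 + b ^ k * (4 + b ^ k * (0 + b ^ k * (0 + b ^ k * (28 + b ^ k * (0 + b ^ k * (0 + b ^ k *
      (32 + b ^ k * 16))))))) := by
      have h1 : b ^ (k + k) = b ^ k * b ^ k := pow_add b k k
      rw [h1, ← hm]
      ring
    rw [e, N_sq hb (by omega)]
    exact bound hb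
  · have h1 : 1 + 2 * b ^ k < b ^ (k + k) := by
      rw [pow_add]
      nlinarith
    rw [N_add hb (k + k) h1, N_add hb k (by omega)]
    have h2 : k' ≤ N b m := N_pred2 hb (by rw [hm, hk'])
    omega

end Pool.Agent.Results.MP_dd1d4c_nt.SparseSquares
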